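import Mathlib

set_option autoImplicit false

namespace Pool.Agent.Results.MP_8e7993_co.NoPathOfLengthThree

/-- The set `F` of arcs is a feedback arc set of `G`: it consists of arcs of `G`, and the digraph
without the arcs in `F` has no closed walk of positive length. -/
def IsFeedbackArcSet {V : Type} (G : Digraph V) (F : Set (V × V)) : Prop :=
  (∀ e ∈ F, G.Adj e.1 e.2) ∧
    ∀ v : V, ¬ Relation.TransGen (fun a b => G.Adj a b ∧ (a, b) ∉ F) v v

/-- `F` contains a directed path with `l` arcs on distinct vertices. -/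
def ContainsPath {V : Type} (F : Set (V × V)) (l : ℕ) : Prop :=
  ∃ p : Fin (l + 1) → V, Function.Injective p ∧ ∀ i : Fin l, (p i.castSucc, p i.succ) ∈ F

/-- Vertices: `k + 1` hubs and `k` satellites for each hub. -/
abbrev W (k : ℕ) : Type := Fin (k + 1) ⊕ (Fin (k + 1) × Fin k)

/-- Hub `x` dominates exactly its own satellites; a satellite of `y` dominates all hubs but `y`. -/
def adjW (k : ℕ) : W k → W k → Prop
  | Sum.inl x, Sum.inr (y, _) => x = y
  | Sum.inr (y, _), Sum.inl x => x ≠ y
  | _, _ => False

def D (k : ℕ) : Digraph (W k) := { Adj := adjW k }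

theorem adj_ll {k : ℕ} (x y : Fin (k + 1)) : ¬ (D k).Adj (Sum.inl x) (Sum.inl y) := fun h => h

theorem adj_rr {k : ℕ} (x y : Fin (k + 1) × Fin k) :
    ¬ (D k).Adj (Sum.inr x) (Sum.inr y) := fun h => h

theorem irrefl {k : ℕ} (v : W k) : ¬ (D k).Adj v v := by
  intro hv
  rcases v with x | x
  · exact adj_ll _ _ hv
  · exact adj_rr _ _ hv

theorem out_degree {k : ℕ} (v : W k) : k ≤ Nat.card {w : W k // (D k).Adj v w} := by
  rcases v with x | ⟨y, j⟩
  · have : Function.Injective (fun i : Fin k =>
        (⟨Sum.inr (x, i), rfl⟩ : {w : W k // (D k).Adj (Sum.inl x) w})) := by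
      intro a b h
      have h1 := congrArg Subtype.val h
      simpa using h1
    simpa using Nat.card_le_card_of_injective _ this
  · have : Function.Injective (fun i : Fin k =>
        (⟨Sum.inl (y.succAbove i), y.succAbove_ne i⟩ :
          {w : W k // (D k).Adj (Sum.inr (y, j)) w})) := by
      intro a b h
      have h1 := congrArg Subtype.val h
      simpa using h1
    simpa using Nat.card_le_card_of_injective _ this

/-- If `F` is a minimal feedback arc set and `(a, b) ∈ F`, then `b` reaches `a` outside `F`. -/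
theorem back_path {V : Type} (G : Digraph V) (hirr : ∀ v, ¬ G.Adj v v) (F : Set (V × V))
    (hF : Minimal (IsFeedbackArcSet G) F) (a b : V) (hab : (a, b) ∈ F) :
    Relation.TransGen (fun c d => G.Adj c d ∧ (c, d) ∉ F) b a := by
  by_contra hcon
  have hnot : ¬ IsFeedbackArcSet G (F \ {(a, b)}) := by
    intro hP
    have hle := hF.2 hP Set.sdiff_subset
    exact (hle hab).2 rfl
  apply hnot
  refine ⟨fun e he => hF.1.1 e he.1, ?_⟩
  have key : ∀ u v : V, Relation.TransGen (fun c d => G.Adj c d ∧ (c, d) ∉ F \ {(a, b)}) u v →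
      Relation.TransGen (fun c d => G.Adj c d ∧ (c, d) ∉ F) u v ∨
      (Relation.ReflTransGen (fun c d => G.Adj c d ∧ (c, d) ∉ F) u a ∧
        Relation.ReflTransGen (fun c d => G.Adj c d ∧ (c, d) ∉ F) b v) := by
    intro u v huv
    induction huv with
    | single h =>
      rename_i c
      by_cases hc : (u, c) ∈ F
      · have : (u, c) = (a, b) := by
          by_contra hne
          exact h.2 ⟨hc, hne⟩
        obtain ⟨rfl, rfl⟩ := Prod.mk.inj this
        exact Or.inr ⟨Relation.ReflTransGen.refl, Relation.ReflTransGen.refl⟩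
      · exact Or.inl (Relation.TransGen.single ⟨h.1, hc⟩)
    | tail h1 h ih =>
      rename_i c d
      by_cases hc : (c, d) ∈ F
      · have hcd : (c, d) = (a, b) := by
          by_contra hne
          exact h.2 ⟨hc, hne⟩
        obtain ⟨rfl, rfl⟩ := Prod.mk.inj hcd
        rcases ih with ih | ih
        · exact Or.inr ⟨ih.to_reflTransGen, Relation.ReflTransGen.refl⟩
        · exact Or.inr ⟨ih.1, Relation.ReflTransGen.refl⟩
      · have hR : G.Adj c d ∧ (c, d) ∉ F := ⟨h.1, hc⟩
        rcases ih with ih | ih
        · exact Or.inl (ih.tail hR)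
        · exact Or.inr ⟨ih.1, ih.2.tail hR⟩
  intro v hv
  rcases key v v hv with h | ⟨h1, h2⟩
  · exact hF.1.2 v h
  · have h3 := h2.trans h1
    rcases Relation.reflTransGen_iff_eq_or_transGen.mp h3 with he | ht
    · have hadj : G.Adj a b := hF.1.1 _ hab
      rw [he] at hadj
      exact hirr _ hadj
    · exact hcon ht

/-- A minimal feedback arc set never contains both the only in-arc of a vertex `b` and an out-arc
of `b`. -/
theorem no_pass {V : Type} (G : Digraph V) (hirr : ∀ v, ¬ G.Adj v v) (F : Set (V × V))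
    (hF : Minimal (IsFeedbackArcSet G) F) (a b c : V) (hab : (a, b) ∈ F) (hbc : (b, c) ∈ F)
    (honly : ∀ z, G.Adj z b → z = a) : False := by
  have h := back_path G hirr F hF b c hbc
  rcases Relation.TransGen.tail'_iff.mp h with ⟨z, -, hz⟩
  have := honly z hz.1
  subst this
  exact hz.2 hab

/-- For every `k` there is a finite nonempty loopless digraph in which every vertex has at least
`k` out-neighbours and in which no inclusion-minimal feedback arc set contains a directed path with
three arcs. -/
theorem result (k : ℕ) :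
    ∃ (V : Type) (_ : Finite V) (_ : Nonempty V) (G : Digraph V),
      (∀ v, ¬ G.Adj v v) ∧
      (∀ v : V, k ≤ Nat.card {w : V // G.Adj v w}) ∧
      ∀ F : Set (V × V), Minimal (IsFeedbackArcSet G) F → ¬ ContainsPath F 3 := by
  refine ⟨W k, inferInstance, inferInstance, D k, irrefl, out_degree, ?_⟩
  rintro F hF ⟨p, -, hp⟩
  have h01 : (p 0, p 1) ∈ F := hp 0
  have h12 : (p 1, p 2) ∈ F := hp 1
  have h23 : (p 2, p 3) ∈ F := hp 2
  have a01 : (D k).Adj (p 0) (p 1) := hF.1.1 _ h01
  have a12 : (D k).Adj (p 1) (p 2) := hF.1.1 _ h12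
  have a23 : (D k).Adj (p 2) (p 3) := hF.1.1 _ h23
  generalize p 0 = p0 at *
  generalize p 1 = p1 at *
  generalize p 2 = p2 at *
  generalize p 3 = p3 at *
  -- a satellite `(y, j)` has the hub `y` as its only in-neighbour
  have only : ∀ (y : Fin (k + 1)) (j : Fin k) (z : W k), (D k).Adj z (Sum.inr (y, j)) →
      z = Sum.inl y := by
    intro y j z hz
    rcases z with x | x
    · have : x = y := hz
      rw [this]
    · exact absurd hz (adj_rr _ _)
  rcases p1 with x1 | ⟨y1, j1⟩
  · rcases p2 with x2 | ⟨y2, j2⟩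
    · exact adj_ll _ _ a12
    · have e : (Sum.inl x1 : W k) = Sum.inl y2 := only y2 j2 _ a12
      exact no_pass (D k) irrefl F hF _ _ _ h12 h23 (fun z hz => by rw [e]; exact only y2 j2 z hz)
  · have e : p0 = Sum.inl y1 := only y1 j1 _ a01
    exact no_pass (D k) irrefl F hF _ _ _ h01 h12 (fun z hz => by rw [e]; exact only y1 j1 z hz)

end Pool.Agent.Results.MP_8e7993_co.NoPathOfLengthThree
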